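import Pool.Agent.NH49.LR.Main
import Pool.Agent.NH49.LR.Defs

/-!
# Simplicity and bounded fragmentation for the Hamiltonian homeomorphisms of the ball

The analogue, in all dimensions `2n`, of a theorem of Le Roux for the disc.

Definitions: `Pool/Agent/NH49/LR/Defs.lean`, `Pool/Agent/R773/HN/Defs.lean` and
`Pool/Agent/Y453/HB/Stm.lean` (`HamHomeo n`: the group of compactly supported Hamiltonian homeomorphisms of the
open unit ball of `E n = ℝ^{2n}`, the same as in the frozen statement S13311).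

Parts of the proof (folder `Pool/Agent/NH49/LR`): `BL` and `PIT` by helper77, `WC` by helper39, `CM` by
helper78, `IPH` by helper71, `IPM` by helper20, `AP` by helper81, `IPL` by helper17, `PIM` by helper99, `PIS`
by helper37, `PIC` by helper69, `KAP` by helper87, `SHG` by helper54, `SHF` by helper47, `LER`, `LER2` by
helper89, `NCL` by helper15, `HUMP` by helper30, and the library of the projects HB and HN.
-/

set_option autoImplicit false

namespace Pool.Agent.Results.MP_68f289_gt.BoundedFragmentation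

open Pool.Agent.R773.HN (HamHomeo)
open Pool.Agent.NH49.LR

/-- Let `n ≥ 1` and `G = HamHomeo n`. There is a subgroup `S` of `G`, normal, simple, and contained in every
nontrivial normal subgroup of `G`, such that:

* the Hamiltonian homeomorphisms of some ball of radius `ρ < 1` are all in `S` if and only if there is bounded
  fragmentation at some radius `ρ < 1`;
* bounded fragmentation at the radius `ρ ≤ 1` implies that the Hamiltonian homeomorphisms of the ball of
  radius `ρ` are in `S`, that there is bounded fragmentation at all smaller radii, and that for some `m`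
  those of the ball of radius `ρ / 800` are products of `m` commutators of Hamiltonian homeomorphisms of the
  ball of radius `1 / 100`;
* `G` is simple if and only if it is, for every `0 < r < 1`, the normal closure of the set of the Hamiltonian
  homeomorphisms of the ball of radius `r`, and there is bounded fragmentation at some radius `ρ < 1`;
* if there is no bounded fragmentation at any radius `ρ < 1` then, for every countable set `Z` of elements
  which are in all these normal closures, and every `ρ ≤ 1`, some Hamiltonian homeomorphism of the ball of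
  radius `ρ` is not in the normal closure of `Z`;
* if `G` is the normal closure of the set of the Hamiltonian homeomorphisms of the ball of radius `r`, for
  every `0 < r < 1`, and `G` is not simple, then `G` is not the normal closure of a countable set. -/
theorem result (n : ℕ) (hn : 0 < n) :
    ∃ S : Subgroup (HamHomeo n), S.Normal ∧ IsSimpleGroup S ∧
      (∀ N : Subgroup (HamHomeo n), N.Normal → N ≠ ⊥ → S ≤ N) ∧
      ((∃ ρ : ℝ, 0 < ρ ∧ ρ < 1 ∧ BallHam n ρ ⊆ S) ↔ HasBoundedFrag n) ∧
      (∀ ρ : ℝ, 0 < ρ → ρ ≤ 1 → BoundedFrag n ρ → FragConsequences n S ρ) ∧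
      (IsSimpleGroup (HamHomeo n) ↔ Fragmentable n = Set.univ ∧ HasBoundedFrag n) ∧
      (¬ HasBoundedFrag n → ∀ Z : Set (HamHomeo n), Z.Countable → Z ⊆ Fragmentable n →
        ∀ ρ : ℝ, 0 < ρ → ρ ≤ 1 → ¬ BallHam n ρ ⊆ Subgroup.normalClosure Z) ∧
      (Fragmentable n = Set.univ → ¬ IsSimpleGroup (HamHomeo n) → ∀ Z : Set (HamHomeo n),
        Z.Countable → Subgroup.normalClosure Z ≠ ⊤) := by
  have key : ∃ S : Subgroup (HamHomeo n), S.Normal ∧ IsSimpleGroup S ∧
      (∀ N : Subgroup (HamHomeo n), N.Normal → N ≠ ⊥ → S ≤ N) ∧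
      ((∃ ρ : ℝ, 0 < ρ ∧ ρ < 1 ∧ BallHam n ρ ⊆ S) ↔ ∃ ρ : ℝ, 0 < ρ ∧ ρ < 1 ∧ BoundedFrag n ρ) ∧
      (∀ ρ : ℝ, 0 < ρ → ρ ≤ 1 → BoundedFrag n ρ → BallHam n ρ ⊆ S ∧
        (∀ t : ℝ, 0 < t → t ≤ 1 → BoundedFrag n (t * ρ)) ∧
        ∃ m : ℕ, BallHam n (ρ / 800) ⊆ ProdComm n (1 / 100) m) ∧
      (IsSimpleGroup (HamHomeo n) ↔
        (∀ r : ℝ, 0 < r → r < 1 → Subgroup.normalClosure (BallHam n r) = ⊤) ∧
        ∃ ρ : ℝ, 0 < ρ ∧ ρ < 1 ∧ BoundedFrag n ρ) ∧
      ((¬ ∃ ρ : ℝ, 0 < ρ ∧ ρ < 1 ∧ BoundedFrag n ρ) → ∀ Z : Set (HamHomeo n), Z.Countable →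
        (∀ r : ℝ, 0 < r → r < 1 → Z ⊆ Subgroup.normalClosure (BallHam n r)) →
        ∀ ρ : ℝ, 0 < ρ → ρ ≤ 1 → ¬ BallHam n ρ ⊆ Subgroup.normalClosure Z) :=
    final t_BL a_WC a_LER2 a_HUMP n hn
  obtain ⟨S, h1, h2, h3, h4, h5, h6, h7⟩ := key
  have hF : Fragmentable n = Set.univ ↔
      ∀ r : ℝ, 0 < r → r < 1 → Subgroup.normalClosure (BallHam n r) = ⊤ := by
    constructor
    · intro h r h0 h1
      rw [eq_top_iff]
      intro g _
      have hg : g ∈ Fragmentable n := by rw [h]; exact Set.mem_univ g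
      exact hg r h0 h1
    · intro h
      rw [Set.eq_univ_iff_forall]
      intro g r h0 h1
      rw [h r h0 h1]
      exact Subgroup.mem_top g
  have h7' : ¬ HasBoundedFrag n → ∀ Z : Set (HamHomeo n), Z.Countable → Z ⊆ Fragmentable n →
      ∀ ρ : ℝ, 0 < ρ → ρ ≤ 1 → ¬ BallHam n ρ ⊆ Subgroup.normalClosure Z :=
    fun h Z hZ hZF => h7 h Z hZ fun r h0 h1 z hz => hZF hz r h0 h1
  refine ⟨S, h1, h2, h3, h4, h5, h6.trans (and_congr_left fun _ => hF.symm), h7', fun hr hns Z hZ hT => ?_⟩
  have hno : ¬ HasBoundedFrag n := fun h => hns (h6.2 ⟨hF.1 hr, h⟩)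
  refine h7' hno Z hZ (fun z _ => ?_) 1 one_pos le_rfl ?_
  · rw [hr]
    exact Set.mem_univ z
  · rw [hT]
    exact fun _ _ => Subgroup.mem_top _

end Pool.Agent.Results.MP_68f289_gt.BoundedFragmentation
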