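import Pool.Agent.NH65.BG.FreeHom

/-!
# The Hamiltonian homeomorphisms of the ball have no homomorphisms to free and poly-free groups

`HamHomeo n` (`Pool/Agent/R773/HN/Defs.lean`, `Pool/Agent/Y453/HB/Stm.lean`) is the group `G` of the compactly supported
Hamiltonian homeomorphisms of the open unit ball of `ℝ^{2n}`, the same as in the frozen statement S13311; here `n` is
arbitrary. Every homomorphism from `G` to a group with a length function `ℓ` (`IsDudleyLength`, file
`Pool/Agent/NH65/BG/Stm2.lean`) for which `ℓ(a^m) ≥ max (m, ℓ(a))`, `a ≠ 1`, is trivial; for example every homomorphism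
to `ℤ` or to a free group, and so to a group with a tower of subgroups whose factors are embedded in such groups
(poly-free groups, torsion-free polycyclic groups with factors `ℤ`, pure braid groups). No continuity is assumed.

The proof. The closures `Gam n r` of the groups of the Hamiltonian diffeomorphisms supported in smaller balls are Polish
groups for the uniform convergence, and their union is `G`. By a theorem of Dudley (1961) a homomorphism from a Polish
group to `A` has an open kernel (`DUD`, by helper58). A Hamiltonian diffeomorphism is a product of ones which are near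
the identity (`SPL`, by helper70), so it is in the kernel, and these are dense. Other parts: `POL` by helper66, `TOP` by
helper79, `NBH` by helper84, `GA` by helper75, `GB` by helper31, `GC` by helper17, `FREE` by helper18.
-/

set_option autoImplicit false

namespace Pool.Agent.Results.MP_68f289_gt.NoFreeQuotients

open Pool.Agent.R773.HN Pool.Agent.NH65.BG

/-- every homomorphism from `HamHomeo n` to `A` is trivial -/
def NoHom (n : ℕ) (A : Type) [Group A] : Prop := ∀ c : HamHomeo n →* A, c = 1

/-- `A` has a Dudley length -/
def IsDudleyGroup (A : Type) [Group A] : Prop := ∃ ℓ : A → ℕ, IsDudleyLength ℓ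

/-- `A` has subgroups `A = B 0`, …, `B k = 1` such that for `i < k` the kernel of some homomorphism from `B i` to a group
with a Dudley length is contained in `B (i + 1)` -/
def HasTower (A : Type) [Group A] : Prop := ∃ (k : ℕ) (B : ℕ → Subgroup A), B 0 = ⊤ ∧ B k = ⊥ ∧
  ∀ i < k, ∃ (F : Type) (_ : Group F) (f : B i →* F), IsDudleyGroup F ∧ ∀ x : B i, f x = 1 → x.1 ∈ B (i + 1)

/-- **Homomorphisms from the group of the Hamiltonian homeomorphisms of the ball.** (1) Every homomorphism to a group
with a Dudley length is trivial. (2) Every homomorphism to `ℤ` or to a free group is trivial. (3) Every homomorphism to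
a group `A` with a tower (`HasTower`) is trivial. -/
theorem result (n : ℕ) :
    (∀ (A : Type) [Group A], IsDudleyGroup A → NoHom n A) ∧
    (NoHom n (Multiplicative ℤ) ∧ ∀ (A : Type) [Group A] [IsFreeGroup A], NoHom n A) ∧
    ∀ (A : Type) [Group A], HasTower A → NoHom n A :=
  ⟨fun _ _ ⟨_, h⟩ c => hom_eq_one h c, ⟨fun c => hom_eq_one dudley_int c, fun A _ _ c => hom_free A c⟩,
    fun _ _ ⟨k, B, h0, hk, h⟩ c => hom_tower k B h0 hk (fun i hi => by
      obtain ⟨F, g, f, ⟨ℓ, hℓ⟩, hf⟩ := h i hi
      exact ⟨F, g, ℓ, f, hℓ, hf⟩) c⟩

end Pool.Agent.Results.MP_68f289_gt.NoFreeQuotients
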