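import Pool.Agent.NH65.BG.Main2

/-!
# Small subgroups of the group of the Hamiltonian homeomorphisms of the ball

`HamHomeo n` (`Pool/Agent/R773/HN/Defs.lean`, `Pool/Agent/Y453/HB/Stm.lean`) is the group `G` of the compactly supported
Hamiltonian homeomorphisms of the open unit ball of `ℝ^{2n}`, the same as in the frozen statement S13311. `Gam n r`
(`Pool/Agent/NH65/BG/Stm.lean`) is the closure, for the uniform convergence, of the set of the Hamiltonian
diffeomorphisms supported in the closed ball of radius `r < 1`; `G` is the union of these Polish groups. `Hameo n`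
(`Pool/Agent/NH65/BG/Stm3.lean`) is the group of hameomorphisms of Oh and Müller.

We prove that a subgroup of `G` with the property of Baire (for example the one, or the normal one, generated by an
analytic set) is equal to `G` or small: it has uncountable index in `G` and is meagre in `Gam n r` for all `r < 1` near
`1`. So `G` is simple or the quotient by its smallest normal subgroup is uncountable and this subgroup is meagre; the
same for the commutator subgroup (`G` is perfect or its abelianization is uncountable), for the normal closures of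
countable sets, and for the group `Hameo(B)`.

The parts of the proof (folder `Pool/Agent/NH65/BG`): `BP` (analytic sets have the property of Baire) by helper67, `PET`
by helper19, `POL` by helper66, `CNT`, `HAM` by helper38, `TOP` by helper79, `NBH` by helper84, `GA` by helper75, `GB` by
helper31, `GC` by helper17, `SPL` by helper70, `ANA` by helper2, `ABS` by helper9, `HSEP` by helper45, `HTRI` by
helper33, `HLIM` by helper27, `HCAU` by helper37, `HMON` by helper40, and the library of the projects HB and HN of the
starting files.
-/

set_option autoImplicit false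

namespace Pool.Agent.Results.MP_68f289_gt.UncountableQuotients

open MeasureTheory Pool.Agent.R773.HN Pool.Agent.NH65.BG

/-- the homeomorphisms of `ℝ^{2n}` are a Polish group, the sets `Gam n r` are closed subgroups of it, and `G` is the
union of those with `0 < r < 1` -/
def IsUnionOfPolishGroups (n : ℕ) : Prop :=
  PolishSpace (Homeos n) ∧ IsTopologicalGroup (Homeos n) ∧
  (∀ r : ℝ, IsClosed (Gam n r) ∧ ∃ L : Subgroup (Homeos n), (L : Set (Homeos n)) = Gam n r) ∧
  (HamHomeo n : Set (Homeos n)) = ⋃ r ∈ Set.Ioo (0 : ℝ) 1, Gam n r

theorem isUnion (n : ℕ) : IsUnionOfPolishGroups n := by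
  refine ⟨(t_POL n).1, (t_POL n).2, fun r => ⟨isClosed_closure, t_GA t_POL n r⟩, Set.Subset.antisymm ?_ ?_⟩
  · intro f hf
    obtain ⟨j, hj⟩ := t_GC t_TOP n f hf
    have hj2 : (0 : ℝ) < (j : ℝ) + 2 := by positivity
    have h0 : (0 : ℝ) < 1 - 1 / ((j : ℝ) + 2) := by
      rw [sub_pos, div_lt_one hj2]
      linarith [(Nat.cast_nonneg j : (0 : ℝ) ≤ j)]
    have h1 : 1 - 1 / ((j : ℝ) + 2) < 1 := by
      have : 0 < 1 / ((j : ℝ) + 2) := by positivity
      linarith
    exact Set.mem_biUnion ⟨h0, h1⟩ hj
  · exact Set.iUnion₂_subset fun r hr => t_GB t_POL t_TOP n r hr.1 hr.2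

/-- **Subgroups of the group `G` of the Hamiltonian homeomorphisms of the ball.** (0) `G` is a union of Polish groups. (1) A subgroup with the property of
Baire is `G` or small. (2) The normal closure of an analytic set has the property of Baire. So the following subgroups
are `G` or small: (3) the group of the hameomorphisms, (4) the commutator subgroup, (5) the normal closure of a countable
set, (6) the smallest nontrivial normal subgroup `S`, which is a simple group. -/
theorem result (n : ℕ) (hn : 0 < n) :
    IsUnionOfPolishGroups n ∧
    (∀ N : Subgroup (HamHomeo n), HasBaireProperty N → N = ⊤ ∨ IsSmall N) ∧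
    (∀ A : Set (Homeos n), AnalyticSet A →
      HasBaireProperty (Subgroup.normalClosure {g : HamHomeo n | g.1 ∈ A})) ∧
    (Hameo n = ⊤ ∨ IsSmall (Hameo n)) ∧
    (commutator (HamHomeo n) = ⊤ ∨ IsSmall (commutator (HamHomeo n))) ∧
    (∀ Z : Set (HamHomeo n), Z.Countable → Subgroup.normalClosure Z = ⊤ ∨ IsSmall (Subgroup.normalClosure Z)) ∧
    ∃ S : Subgroup (HamHomeo n), S.Normal ∧ IsSimpleGroup S ∧
      (∀ N : Subgroup (HamHomeo n), N.Normal → N ≠ ⊥ → S ≤ N) ∧ (IsSimpleGroup (HamHomeo n) ∨ IsSmall S) := by
  have key : ∀ N : Subgroup (HamHomeo n), HasBaireProperty N → N = ⊤ ∨ IsSmall N := fun N hN => by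
    by_cases h : N = ⊤
    · exact Or.inl h
    · exact Or.inr (small_of h hN)
  refine ⟨isUnion n, key, fun A hA => baire_normalClosure hA, key _ baire_hameo, key _ baire_commutator,
    fun Z hZ => key _ (baire_countable hZ), ?_⟩
  obtain ⟨S, s1, s2, s3, -, s5⟩ := smallest hn
  exact ⟨S, s1, s2, s3, or_iff_not_imp_left.2 s5⟩

end Pool.Agent.Results.MP_68f289_gt.UncountableQuotients
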